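import Pool.Agent.Run7.h560.AP.Forms2

set_option autoImplicit false

/-!
# Prime and almost prime values of `n, a₁ n + 1, …, a_s n + 1` for the integers `n` given by their digits
-/

namespace Pool.Agent.Results.MP_bca3e5_nt.DigitArguments

open Finset
open Pool.Agent.Run7.h560.AP

/-- admissibility, as in the problem -/
def Admissible {s : ℕ} (a : Fin s → ℕ) : Prop := ∀ p : ℕ, p.Prime → ∃ n : ℕ, 1 ≤ n ∧ ¬ p ∣ n * ∏ i, (a i * n + 1)

/-- the number of the residue classes `n` modulo `p` for which `p` divides `n (a₁ n + 1) ⋯ (a_s n + 1)` -/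
noncomputable def roots {s : ℕ} (a : Fin s → ℕ) (p : ℕ) : ℕ := Set.ncard {n : ℕ | n < p ∧ p ∣ n * ∏ i, (a i * n + 1)}

/-- the density `∏ (1 - roots(p) / p)` over the primes `p ≤ x` -/
noncomputable def dens {s : ℕ} (a : Fin s → ℕ) (x : ℕ) : ℝ :=
  ∏ p ∈ (range (x + 1)).filter Nat.Prime, (1 - (roots a p : ℝ) / p)

/-- the coefficients of the forms -/
def fa {s : ℕ} (a : Fin s → ℕ) : Fin (s + 1) → ℤ := Fin.cons 1 (fun i => (a i : ℤ))

/-- the constants of the forms -/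
def fc (s : ℕ) : Fin (s + 1) → ℤ := Fin.cons 0 (fun _ => 1)

lemma fprod {s : ℕ} (a : Fin s → ℕ) (n : ℕ) : ∏ i, (fa a i * n + fc s i) = ((n * ∏ i, (a i * n + 1) : ℕ) : ℤ) := by
  rw [Fin.prod_univ_succ]
  simp only [fa, fc, Fin.cons_zero, Fin.cons_succ]
  push_cast
  ring

lemma rho_roots {s : ℕ} (a : Fin s → ℕ) (p : ℕ) : rho (fa a) (fc s) p = roots a p := by
  rw [rho_ncard (fa a) (fc s) p (fun n => ((n * ∏ i, (a i * n + 1) : ℕ) : ℤ)) (fprod a)]
  unfold roots
  congr 1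
  ext n
  rw [Set.mem_ofPred_eq, Set.mem_ofPred_eq, Int.natCast_dvd_natCast]

lemma forms_ok {s : ℕ} (a : Fin s → ℕ) (ha : ∀ i, 0 < a i) : ∀ i, fa a i ≠ 0 ∧ IsCoprime (fa a i) (fc s i) := by
  intro i
  refine Fin.cases ?_ (fun j => ?_) i
  · exact ⟨by simp [fa], isCoprime_one_left⟩
  · refine ⟨?_, ?_⟩
    · have := ha j
      simp only [fa, Fin.cons_succ]
      omega
    · exact isCoprime_one_right

lemma admissible {s : ℕ} (a : Fin s → ℕ) (h : Admissible a) (p : ℕ) (hp : p.Prime) : rho (fa a) (fc s) p < p := by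
  apply rho_lt _ _ p hp
  obtain ⟨n, _, hn⟩ := h p hp
  refine ⟨n, fun i hi => hn ?_⟩
  have h1 : (p : ℤ) ∣ ∏ i, (fa a i * n + fc s i) := hi.trans (dvd_prod_of_mem _ (mem_univ i))
  rw [fprod] at h1
  exact_mod_cast h1

/-- **Main theorem.** -/
theorem result :
    (∀ b : ℕ, 2 ≤ b → ∀ (σ : Type) [Fintype σ] (M : DFA ℕ σ), NonSparse (autoSet b M) → ∀ s : ℕ,
      ∃ (C : ℝ) (x₀ : ℕ), 0 < C ∧ ∀ x : ℕ, x₀ ≤ x → ∀ a : Fin s → ℕ, (∀ i, 0 < a i) → Admissible a →
        (Set.ncard {n : ℕ | n ∈ autoSet b M ∧ n < x ∧ n.Prime ∧ ∀ i, (a i * n + 1).Prime} : ℝ) ≤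
          C * below (autoSet b M) x * dens a x) ∧
    (∀ b : ℕ, 2 ≤ b → ∀ S : Finset ℕ, 0 ∈ S → 1 ∈ S → ∀ s D : ℕ, ∃ (R : ℕ) (η c : ℝ) (x₀ : ℕ), 0 < η ∧ 0 < c ∧
      ∀ x : ℕ, x₀ ≤ x → ∀ a : Fin s → ℕ, (∀ i, 0 < a i ∧ a i ≤ x ^ D) → Admissible a →
      (∃ e ∈ S, e < b ∧ Nat.Coprime e b ∧ ∀ i, Nat.Coprime (a i * e + 1) b) →
        c * below (digitSet b S) x * dens a x ≤
          (Set.ncard {n : ℕ | n ∈ digitSet b S ∧ n < x ∧ Almost R ((x : ℝ) ^ η) n ∧
            ∀ i, Almost R ((x : ℝ) ^ η) (a i * n + 1)} : ℝ)) ∧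
    (∀ (s : ℕ) (a : Fin s → ℕ), (∀ i, 0 < a i) → Function.Injective a → Admissible a →
      ∃ c C : ℝ, 0 < c ∧ 0 < C ∧ ∀ x : ℕ, 2 ≤ x → c / Real.log x ^ (s + 1) ≤ dens a x ∧
        dens a x ≤ C / Real.log x ^ (s + 1)) := by
  classical
  have hdens : ∀ (s : ℕ) (a : Fin s → ℕ) (x : ℕ), ∏ p ∈ (range (x + 1)).filter Nat.Prime, (1 - (rho (fa a) (fc s) p : ℝ) / p) = dens a x := by
    intro s a x
    unfold dens
    apply prod_congr rfl
    intro p _
    rw [rho_roots]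
  refine ⟨fun b hb σ _ M hM s => ?_, fun b hb S h0 h1 s D => ?_, fun s a ha hinj hadm => ?_⟩
  · obtain ⟨C, N₀, hC, h⟩ := sys_upper b hb M (nonsparse b M hM) (s + 1)
    refine ⟨C, N₀, hC, fun x hx a ha hadm => ?_⟩
    have h2 := h x hx (fa a) (fc s) (forms_ok a ha) (fun p hp => admissible a hadm p hp)
    rw [hdens] at h2
    rw [below_cnt]
    refine le_trans ?_ h2
    rw [Nat.cast_le]
    apply ncard_le_cnt
    rintro n ⟨a1, a2, a3, a4⟩
    refine ⟨a1, a2, fun i => ?_⟩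
    refine Fin.cases ?_ (fun j => ?_) i
    · simpa [fa, fc] using a3
    · have e1 : fa a j.succ * (n : ℤ) + fc s j.succ = ((a j * n + 1 : ℕ) : ℤ) := by
        simp only [fa, fc, Fin.cons_succ]
        push_cast
        ring
      rw [e1, Int.natAbs_natCast]
      exact a4 j
  · obtain ⟨R, η, c₀, N₀, hη, hc₀, h⟩ := digits_lower b hb S h0 h1 (s + 1) D
    refine ⟨R, η, c₀, N₀ + 1, hη, hc₀, fun x hx a ha hadm he => ?_⟩
    obtain ⟨e, heS, heb, he1, he2⟩ := he
    have h2 := h x (by omega) (fa a) (fc s) (fun i => (forms_ok a (fun i => (ha i).1) i).2) (by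
      intro i
      have hx1 : 1 ≤ x ^ D := Nat.one_le_pow _ _ (by omega)
      refine Fin.cases ?_ (fun j => ?_) i
      · refine ⟨by simpa [fa] using hx1, by simp [fc]⟩
      · refine ⟨?_, by simpa [fc] using hx1⟩
        simp only [fa, Fin.cons_succ, Int.natAbs_natCast]
        exact (ha j).2) (fun p hp _ => admissible a hadm p hp) ⟨e, heS, heb, by
      intro i
      refine Fin.cases ?_ (fun j => ?_) i
      · have e1 : fa a 0 * (e : ℤ) + fc s 0 = (e : ℤ) := by simp [fa, fc]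
        rw [e1]
        exact Nat.isCoprime_iff_coprime.2 he1
      · have e1 : fa a j.succ * (e : ℤ) + fc s j.succ = ((a j * e + 1 : ℕ) : ℤ) := by
          simp only [fa, fc, Fin.cons_succ]
          push_cast
          ring
        rw [e1]
        exact Nat.isCoprime_iff_coprime.2 (he2 j)⟩
    rw [hdens] at h2
    rw [digit_auto, below_cnt]
    refine h2.trans ?_
    rw [Nat.cast_le]
    have h3 := cnt_le_ncard b (dfa S) x
      (fun n => ∀ i, fa a i * n + fc s i ≠ 0 ∧ (fa a i * n + fc s i).natAbs.primeFactorsList.length ≤ R ∧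
        ∀ p : ℕ, p.Prime → (p : ℤ) ∣ fa a i * n + fc s i → (x : ℝ) ^ η < p)
      {n : ℕ | n ∈ autoSet b (dfa S) ∧ n < x ∧ Almost R ((x : ℝ) ^ η) n ∧ ∀ i, Almost R ((x : ℝ) ^ η) (a i * n + 1)}
      (fin_lt x _ (fun n hn => hn.2.1)) ∅ (by
      intro n a1 a2 a3
      left
      have hal : ∀ (v : ℤ) (q : ℕ), v = q → (v ≠ 0 ∧ v.natAbs.primeFactorsList.length ≤ R ∧
          ∀ p : ℕ, p.Prime → (p : ℤ) ∣ v → (x : ℝ) ^ η < p) → Almost R ((x : ℝ) ^ η) q := by
        rintro v q hv ⟨b1, b2, b3⟩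
        rw [hv] at b1 b2 b3
        rw [Int.natAbs_natCast] at b2
        exact ⟨by exact_mod_cast b1, b2, fun p hp hpd => b3 p hp (Int.natCast_dvd_natCast.2 hpd)⟩
      refine ⟨a1, a2, hal _ n ?_ (a3 0), fun j => hal _ _ ?_ (a3 j.succ)⟩
      · simp [fa, fc]
      · simp only [fa, fc, Fin.cons_succ]
        push_cast
        ring)
    rw [card_empty, add_zero] at h3
    exact h3
  · obtain ⟨c, C, hc, hC, h⟩ := dens_bounds (fa a) (fc s) (forms_ok a ha) (by
      intro i j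
      refine Fin.cases ?_ (fun i' => ?_) i
      · refine Fin.cases ?_ (fun j' => ?_) j
        · intro hne
          exact absurd rfl hne
        · intro _
          simp [fa, fc]
      · refine Fin.cases ?_ (fun j' => ?_) j
        · intro _
          simp [fa, fc]
        · intro hne
          simp only [fa, fc, Fin.cons_succ, mul_one]
          have h1 : i' ≠ j' := fun h => hne (by rw [h])
          have h2 : a i' ≠ a j' := fun h => h1 (hinj h)
          intro h3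
          apply h2
          have h4 : (a i' : ℤ) = a j' := by linarith
          exact_mod_cast h4) (fun p hp => admissible a hadm p hp)
    refine ⟨c, C, hc, hC, fun x hx => ?_⟩
    have h1 := h x hx
    have h2 : ∏ p ∈ prs x, (1 - (rho (fa a) (fc s) p : ℝ) / p) = dens a x := hdens s a x
    rw [h2] at h1
    exact h1

end Pool.Agent.Results.MP_bca3e5_nt.DigitArguments
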