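import Pool.Agent.Run7.h90.AU.Shift

set_option autoImplicit false

/-!
# The numbers `n, a_1 n + 1, ..., a_s n + 1` at the members of thin families of residues modulo a prime

Let `p` be a large prime and let `(v_i)`, `i ∈ s`, be a family of residues modulo `p` whose exponential sums
`∑ e(ξ v_i / p)`, `ξ ≠ 0`, are at most `p ^ (-ε) |s|`; the family may be very thin. Examples: the values of a sparse
polynomial of arbitrary degree on a subgroup of order `p ^ η`, the values `c_1 g_1 ^ n + ... + c_k g_k ^ n`, `n < N`,
`N ≥ p ^ η`. The theorem is about the integers `n` congruent to a member of the family modulo `p` in an interval of length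
`L ≥ p ^ (1 - δ)`. For every
`s ≥ 1`, uniformly in all admissible sets `A` of `s` positive integers, `max A ≤ p ^ B - 1`, the `s + 1` numbers `n`,
`a n + 1`, `a ∈ A`, are simultaneously without prime factors up to `z` with the frequency predicted by the conjecture of
Bateman and Horn for primes.

Proof: bound of Bourgain, Glibichuk and Konyagin in the form for recurrences and monomials (`Agent/Run7/h823/BK9`);
equidistribution in the residue classes modulo all integers up to `p ^ δ` and the fundamental lemma of the sieve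
(`Agent/Run7/h90/AU`).
-/

namespace Pool.Agent.Results.MP_bca3e5_nt.MultiplesInSparseFamilies

open Finset Filter Topology
open Pool.Agent.Run7.h90.AU (UniformFormula UniformOrders SparseSmall RecurrencesSmall height)

/-- The number of the residues `n` modulo `q` for which `q` divides `n ∏ (a n + 1)`, `a ∈ A`. -/
def w (A : Finset ℕ) (q : ℕ) : ℕ := ((range q).filter fun n => q ∣ n * ∏ a ∈ A, (a * n + 1)).card

/-- `A` consists of `s` positive integers and no prime divides all the numbers `n ∏ (a n + 1)`. -/
def Admissible (s : ℕ) (A : Finset ℕ) : Prop := A.card = s ∧ 0 ∉ A ∧ ∀ q : ℕ, q.Prime → w A q < q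

/-- The numbers `n` and `a n + 1`, `a ∈ A`, have the property `P`. -/
def All (A : Finset ℕ) (P : ℕ → Prop) (n : ℕ) : Prop := P n ∧ ∀ a ∈ A, P (a * n + 1)

/-- The partial products, over the primes `q ≤ z`, of the constant of Bateman and Horn. -/
noncomputable def partialConstant (s : ℕ) (A : Finset ℕ) (z : ℕ) : ℝ :=
  ∏ q ∈ (range (z + 1)).filter Nat.Prime, ((1 - (w A q : ℝ) / q) / (1 - 1 / (q : ℝ)) ^ (s + 1))

/-- constant terms -/
def ca (s : ℕ) (_ : Finset ℕ) : Fin (s + 1) → ℤ := Fin.cons 0 (fun _ => 1)

/-- leading coefficients -/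
noncomputable def cd (s : ℕ) (A : Finset ℕ) : Fin (s + 1) → ℤ :=
  Fin.cons 1 (fun j => ((Pool.Agent.Run7.h90.AU.enum s A j : ℕ) : ℤ))

theorem prod_eq {s : ℕ} {A : Finset ℕ} (h : A.card = s) (n : ℕ) :
    ∏ j, (ca s A j + cd s A j * (n : ℤ)) = ((n * ∏ a ∈ A, (a * n + 1) : ℕ) : ℤ) := by
  rw [Fin.prod_univ_succ]
  unfold ca cd
  simp only [Fin.cons_zero, Fin.cons_succ]
  push_cast
  congr 1
  · ring
  · conv_rhs => rw [← Pool.Agent.Run7.h90.AU.enum_image h]
    rw [prod_image (fun x _ y _ hxy => Pool.Agent.Run7.h90.AU.enum_inj h hxy)]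
    exact prod_congr rfl fun j _ => by ring

theorem om_eq {s : ℕ} {A : Finset ℕ} (h : A.card = s) (q : ℕ) :
    Pool.Agent.Run7.h90.AU.om (ca s A) (cd s A) q = w A q := by
  unfold Pool.Agent.Run7.h90.AU.om w
  congr 1
  ext n
  rw [mem_filter, mem_filter, prod_eq h, Int.natCast_dvd_natCast]

theorem isPat (s : ℕ) : Pool.Agent.Run7.h90.AU.Pat (s + 1) All (partialConstant s) height (Admissible s)
    (ca s) (cd s) where
  nd := by
    intro A hA
    have hne : ∀ j, Pool.Agent.Run7.h90.AU.enum s A j ≠ 0 := fun j h0 =>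
      hA.2.1 (h0 ▸ Pool.Agent.Run7.h90.AU.enum_mem hA.1 j)
    refine ⟨fun j => ?_, fun i j hij h => ?_, fun l hl => ?_⟩
    · refine Fin.cases ?_ (fun j => ?_) j
      · unfold cd; simp
      · unfold cd
        simp only [Fin.cons_succ]
        exact_mod_cast hne j
    · revert hij h
      refine Fin.cases ?_ (fun i => ?_) i <;> refine Fin.cases ?_ (fun j => ?_) j
      · intro hij; exact absurd rfl hij
      · intro _ h
        unfold ca cd at h
        simp at h
      · intro _ h
        unfold ca cd at h
        simp at h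
      · intro hij h
        unfold ca cd at h
        simp only [Fin.cons_succ, one_mul] at h
        apply hij
        have h1 : j = i := Pool.Agent.Run7.h90.AU.enum_inj hA.1 (by exact_mod_cast h)
        rw [h1]
    · apply Pool.Agent.Run7.h90.AU.adm_of_om_lt
      rw [om_eq hA.1]
      exact hA.2.2 l hl
  sa := by
    intro A hA j
    have h0 : (0 : ℝ) ≤ ((A.sup id : ℕ) : ℝ) := by positivity
    unfold height ca
    refine Fin.cases ?_ (fun j => ?_) j
    · simp only [Fin.cons_zero, Int.cast_zero, abs_zero]; linarith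
    · simp only [Fin.cons_succ, Int.cast_one, abs_one]; linarith
  sd := by
    intro A hA j
    have h0 : (0 : ℝ) ≤ ((A.sup id : ℕ) : ℝ) := by positivity
    unfold height cd
    refine Fin.cases ?_ (fun j => ?_) j
    · simp only [Fin.cons_zero, Int.cast_one, abs_one]; linarith
    · have h1 : Pool.Agent.Run7.h90.AU.enum s A j ≤ A.sup id :=
        Finset.le_sup (f := id) (Pool.Agent.Run7.h90.AU.enum_mem hA.1 j)
      have h2 : ((Pool.Agent.Run7.h90.AU.enum s A j : ℕ) : ℝ) ≤ ((A.sup id : ℕ) : ℝ) := by exact_mod_cast h1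
      simp only [Fin.cons_succ, Int.cast_natCast]
      rw [abs_of_nonneg (by positivity)]
      linarith
  pat := by
    intro A hA P n hn
    unfold All ca cd
    rw [Fin.forall_fin_succ]
    simp only [Fin.cons_zero, Fin.cons_succ]
    have e0 : ((0 : ℤ) + 1 * (n : ℤ)).natAbs = n := by omega
    have e1 : ∀ a : ℕ, ((1 : ℤ) + (a : ℤ) * (n : ℤ)).natAbs = a * n + 1 := by
      intro a
      have : ((1 : ℤ) + (a : ℤ) * (n : ℤ)) = ((a * n + 1 : ℕ) : ℤ) := by push_cast; ring
      rw [this, Int.natAbs_natCast]
    simp only [e0, e1]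
    rw [Pool.Agent.Run7.h90.AU.enum_all hA.1 (fun a => P (a * n + 1))]
  con := by
    intro A hA
    refine Eventually.of_forall fun z => ?_
    unfold partialConstant Pool.Agent.Run7.h90.AU.psing
    exact prod_congr rfl fun q _ => by rw [om_eq hA.1]

theorem result : (∀ s : ℕ, 1 ≤ s → UniformFormula (s + 1) All (partialConstant s) height (Admissible s) ∧
    UniformOrders (s + 1) All (partialConstant s) height (Admissible s)) ∧ SparseSmall ∧ RecurrencesSmall :=
  ⟨fun s _ => ⟨(isPat s).formula, (isPat s).orders⟩, Pool.Agent.Run7.h90.AU.sparse_small,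
    Pool.Agent.Run7.h90.AU.rec_small⟩

end Pool.Agent.Results.MP_bca3e5_nt.MultiplesInSparseFamilies
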