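import Pool.Agent.Run7.h620.PD.Lin2

set_option autoImplicit false

/-!
# The forms `n`, `a n + 1` at palindromes with two digits

`n` runs over the palindromes with `K` base `b` digits, all of them `e` or `f` (about `2 ^ (K / 2)` numbers of
size `b ^ K`), `A` is any set of `s ≥ 1` positive integers, `s` finite. The systems `n`, `a n + 1` (`a ∈ A`) are counted: from
below those with a bounded number of prime factors, from above the prime ones, in both cases with the expected order
`2 ^ (K / 2) / K ^ (s + 1)`.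

Proof: level of distribution of the palindromes with two digits (balanced digits of all fractions with
denominators up to `exp (c K)` are counted at once), a residue class modulo a fixed number in which none of the
numbers is divisible by a high power of a small prime, the fundamental lemma, Mertens.
-/

namespace Pool.Agent.Results.MP_bca3e5_nt.PalindromesWithTwoDigits

open Finset Filter

/-- `n` has exactly `K` base `b` digits, all of them `e` or `f`, and they read the same backwards. -/
def Pal (b e f K n : ℕ) : Prop :=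
  (Nat.digits b n).length = K ∧ (Nat.digits b n).reverse = Nat.digits b n ∧ ∀ d ∈ Nat.digits b n, d = e ∨ d = f

lemma enum (A : Finset ℕ) : ∃ g : ℕ → ℕ, (∀ i < A.card, g i ∈ A) ∧
    (∀ i < A.card, ∀ j < A.card, i ≠ j → g i ≠ g j) ∧ ∀ a ∈ A, ∃ i < A.card, g i = a := by
  classical
  refine ⟨fun i => if h : i < A.card then (A.equivFin.symm ⟨i, h⟩ : ℕ) else 0, ?_, ?_, ?_⟩
  · intro i hi
    simp only [dif_pos hi]
    exact (A.equivFin.symm ⟨i, hi⟩).2
  · intro i hi j hj hij h
    simp only [dif_pos hi, dif_pos hj] at h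
    have h1 := A.equivFin.symm.injective (Subtype.ext h)
    apply hij
    simpa using h1
  · intro a ha
    refine ⟨(A.equivFin ⟨a, ha⟩ : ℕ), (A.equivFin ⟨a, ha⟩).2, ?_⟩
    simp

open Classical in
/-- **Almost primes `n`, `a n + 1` and primes `n`, `a n + 1` at palindromes with two digits.** -/
theorem result : ∀ b : ℕ, 2 ≤ b → ∀ e f : ℕ, e < b → f < b → e ≠ 0 → f ≠ e →
    ∀ A : Finset ℕ, A.Nonempty → (∀ a ∈ A, 1 ≤ a) →
    ∃ c C : ℝ, 0 < c ∧ 0 < C ∧ ∃ r : ℕ, ∀ᶠ K : ℕ in atTop,
      c * (2 : ℝ) ^ ((K : ℝ) / 2) / (K : ℝ) ^ (A.card + 1) ≤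
        (((Finset.range (b ^ K)).filter (fun n : ℕ => Pal b e f K n ∧ n.primeFactorsList.length ≤ r ∧
          ∀ a ∈ A, (a * n + 1).primeFactorsList.length ≤ r)).card : ℝ) ∧
      (((Finset.range (b ^ K)).filter (fun n : ℕ => Pal b e f K n ∧ n.Prime ∧ ∀ a ∈ A, (a * n + 1).Prime)).card : ℝ) ≤
        C * (2 : ℝ) ^ ((K : ℝ) / 2) / (K : ℝ) ^ (A.card + 1) := by
  intro b hb e f he hf he0 hef A _ hA
  obtain ⟨g, hg1, hg2, hg3⟩ := enum A
  set a : ℕ → ℤ := fun i => if i = 0 then 1 else (g (i - 1) : ℤ) with ha
  set s : ℕ → ℤ := fun i => if i = 0 then 0 else 1 with hs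
  obtain ⟨⟨c, hc, r, h1⟩, ⟨C, hC, h2⟩⟩ := Pool.Agent.Run7.h620.PD.lin_two b hb e f he hf he0 hef (A.card + 1) (by omega)
    a s
    (fun i hi => by
      simp only [ha]
      split_ifs with h0
      · norm_num
      · have := hA _ (hg1 (i - 1) (by omega))
        omega) (by
      intro i hi j hj hij
      simp only [ha, hs]
      split_ifs with h0 h1 h1
      · omega
      · have := hA _ (hg1 (j - 1) (by omega))
        omega
      · have := hA _ (hg1 (i - 1) (by omega))
        omega
      · have := hg2 (i - 1) (by omega) (j - 1) (by omega) (by omega)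
        omega)
  refine ⟨c, C, hc, hC, r, ?_⟩
  filter_upwards [h1, h2] with K hK1 hK2
  constructor
  · refine hK1.trans ?_
    have hle : ((Finset.range (b ^ K)).filter (fun n : ℕ => Pool.Agent.Run7.h620.PD.IsPal b e f K n ∧
        ∀ i < A.card + 1, a i * n + s i ≠ 0 ∧ (a i * n + s i).natAbs.primeFactorsList.length ≤ r)).card ≤
        ((Finset.range (b ^ K)).filter (fun n : ℕ => Pal b e f K n ∧ n.primeFactorsList.length ≤ r ∧
          ∀ a ∈ A, (a * n + 1).primeFactorsList.length ≤ r)).card := by
      apply card_le_card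
      intro n hn
      rw [mem_filter] at hn ⊢
      obtain ⟨g1, g2, g3⟩ := hn
      refine ⟨g1, g2, ?_, ?_⟩
      · have k0 := (g3 0 (by omega)).2
        have e0 : (a 0 * (n : ℤ) + s 0).natAbs = n := by simp [ha, hs]
        rwa [e0] at k0
      · intro x hx
        obtain ⟨i, hi, rfl⟩ := hg3 x hx
        have k1 := (g3 (i + 1) (by omega)).2
        have e1 : (a (i + 1) * (n : ℤ) + s (i + 1)).natAbs = g i * n + 1 := by
          have e2 : a (i + 1) * (n : ℤ) + s (i + 1) = ((g i * n + 1 : ℕ) : ℤ) := by
            simp [ha, hs]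
          rw [e2, Int.natAbs_natCast]
        rwa [e1] at k1
    exact_mod_cast hle
  · refine le_trans ?_ hK2
    have hle : ((Finset.range (b ^ K)).filter (fun n : ℕ => Pal b e f K n ∧ n.Prime ∧ ∀ a ∈ A, (a * n + 1).Prime)).card ≤
        ((Finset.range (b ^ K)).filter (fun n : ℕ => Pool.Agent.Run7.h620.PD.IsPal b e f K n ∧
        ∀ i < A.card + 1, (a i * n + s i).natAbs.Prime)).card := by
      apply card_le_card
      intro n hn
      rw [mem_filter] at hn ⊢
      obtain ⟨g1, g2, g3, g4⟩ := hn
      refine ⟨g1, g2, fun i hi => ?_⟩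
      by_cases h0 : i = 0
      · subst h0
        have e0 : (a 0 * (n : ℤ) + s 0).natAbs = n := by simp [ha, hs]
        rw [e0]
        exact g3
      · have e2 : a i * (n : ℤ) + s i = ((g (i - 1) * n + 1 : ℕ) : ℤ) := by
          simp [ha, hs, h0]
        rw [e2, Int.natAbs_natCast]
        exact g4 _ (hg1 (i - 1) (by omega))
    exact_mod_cast hle

end Pool.Agent.Results.MP_bca3e5_nt.PalindromesWithTwoDigits
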