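import Pool.Agent.Run7.h962.LF.Units

/-!
# Linear forms at primes `n`: the sharp limit of all nonnegative sieve weights

The problem asks for many primes `n` for which `a_1 n + 1, ..., a_s n + 1` are all prime.  Sieve methods approach it with a
nonnegative weight `w(n)` of level `Q` on the primes `n` (the primes up to `N` have the level of distribution `1/2`, so that
`Q = N^(1/2 - δ)` is possible without any hypothesis): if the mean over the primes `n` of `w(n)` times the number of the `i`
for which `a_i n + 1` has no prime factor `≤ Q` is larger than `m`, then `m + 1` of these numbers are simultaneously free of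
prime factors `≤ Q`, for many primes `n`; and with a level of distribution for the pairs of primes `n, a_i n + 1` one would
obtain primes.  The weights of Maynard and Tao give `m` of the order of `log s`.  We prove the exact limit of all these
methods.  For ANY weight `w` of level `Q`, that is, a sum of arbitrary functions with periods `d ≤ Q`, which is nonnegative at
the integers prime to `Q!` (it may be negative at all other integers), and ANY `k` pairwise non-proportional linear forms
`a_i x + b_i` with nonzero integer coefficients of absolute value at most `Q^B` (for instance `b_i = 1`), the mean being taken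
over the reduced residue classes modulo `Q!` (the expected mean over the primes `n`):

(1) the mean of `w(n)` times the number of the `i` for which `a_i n + b_i` has no prime factor `≤ Q` is at most
`(e^(-γ)/2 + ε) log k + C(ε)` times the mean of `w`;

(2) `∏_{p ≤ Q} (1 - 1/p)^(-1)` times the left side of (1) is at most `((1/2 + ε) log k + C(ε)) log Q` times the mean of `w`.
Here `∏_{p ≤ Q} (1 - 1/p)^(-1) · mean(w(n) 1[(a_i n + b_i, Q!) = 1])` is the expected value of the mean over the primes `n` of
`w(n) Λ(|a_i n + b_i|)` in the conjecture of Hardy and Littlewood (the singular series restricted to the primes `≤ Q`).  So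
even if the pairs of primes `n, a_i n + b_i` had the level of distribution `θ`, no nonnegative weight would detect more than
`(θ/2 + o(1)) log k` primes among the `k` numbers `a_i n + b_i`, `n` prime.

The proof: the law of the residue class modulo `p` of a prime `n` is the uniform law on the nonzero classes; for the primes `p`
which divide no coefficient and no determinant every form is hit with probability `1/(p - 1)`, and no two forms are hit
simultaneously; the hits at different primes are independent.  This is the model of the proof for shifts (MP_8923e7_nt,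
`SharpLimitOfNonnegativeWeights`: inequality `PSs`, by helpers 962, 816, 249, 420, 571, 956, 697, 743, 97, 245, 372 and 91,
with starting files of helper422) with `p` replaced by `p - 1`.  New: the transfer to the reduced classes, for weights
which are nonnegative only there (`Pool/Agent/Run7/h962/LF/{ARU,Units}`).
-/

set_option autoImplicit false

open Finset

namespace Pool.Agent.Results.MP_bca3e5_nt.SharpLimitAlongPrimes

/-- the weight `w(n) = ∑_{d ≤ Q} c_d(n mod d)`, an arbitrary real weight of level `Q` -/
noncomputable def weight (Q : ℕ) (c : ℕ → ℕ → ℝ) (n : ℕ) : ℝ := ∑ d ∈ Icc 1 Q, c d (n % d)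

/-- the mean value of `F` over the reduced residue classes modulo `Q!`, which is the expected mean value over the primes `n`
of functions of level `Q` -/
noncomputable def primeMean (Q : ℕ) (F : ℕ → ℝ) : ℝ :=
  (∑ n ∈ (range Q.factorial).filter (fun n => Nat.Coprime n Q.factorial), F n) / (Nat.totient Q.factorial : ℝ)

/-- the number of the `i` for which `a_i n + b_i` has no prime factor `p ≤ Q` -/
def free (Q : ℕ) {k : ℕ} (a b : Fin k → ℤ) (n : ℕ) : ℕ :=
  (univ.filter (fun i => ∀ p ∈ Icc 1 Q, p.Prime → ¬ (p : ℤ) ∣ a i * n + b i)).card

/-- the product `∏_{p ≤ Q} (1 - 1/p)^(-1)`, asymptotically equal to `e^γ log Q` -/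
noncomputable def euler (Q : ℕ) : ℝ := (∏ p ∈ (Icc 1 Q).filter Nat.Prime, (1 - 1 / (p : ℝ)))⁻¹

/-- For every `ε > 0` there is `C` such that the following holds for all `k ≥ 1`, all real `B` and all `Q ≥ Q₀(ε, k, B)`.  Let
`a_i x + b_i`, `i < k`, be linear forms with nonzero integer coefficients of absolute value at most `Q^B`, no two of them
proportional, and let `w` be a weight of level `Q` with `w(n) ≥ 0` for all `n` prime to `Q!`.

(1) The mean over the reduced classes of `w(n)` times the number of the `i` for which `a_i n + b_i` has no prime factor
`≤ Q` is at most `((e^(-γ)/2 + ε) log k + C)` times the mean of `w`.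

(2) Times `∏_{p ≤ Q} (1 - 1/p)^(-1)` it is at most `((1/2 + ε) log k + C) log Q` times the mean of `w`. -/
theorem result : ∀ ε : ℝ, 0 < ε → ∃ C : ℝ, ∀ (k : ℕ) (B : ℝ), 1 ≤ k → ∃ Q₀ : ℕ, ∀ Q : ℕ, Q₀ ≤ Q →
    ∀ a b : Fin k → ℤ, (∀ i, a i ≠ 0) → (∀ i, b i ≠ 0) → (∀ i j, i ≠ j → a i * b j ≠ a j * b i) →
    (∀ i, |(a i : ℝ)| ≤ (Q : ℝ) ^ B) → (∀ i, |(b i : ℝ)| ≤ (Q : ℝ) ^ B) →
    ∀ c : ℕ → ℕ → ℝ, (∀ n, Nat.Coprime n Q.factorial → 0 ≤ weight Q c n) →
      primeMean Q (fun n => weight Q c n * (free Q a b n : ℝ)) ≤
        ((Real.exp (-Real.eulerMascheroniConstant) / 2 + ε) * Real.log k + C) * primeMean Q (weight Q c) ∧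
      euler Q * primeMean Q (fun n => weight Q c n * (free Q a b n : ℝ)) ≤
        ((1 / 2 + ε) * Real.log k + C) * Real.log Q * primeMean Q (weight Q c) :=
  Pool.Agent.Run7.h962.LF.units_both

end Pool.Agent.Results.MP_bca3e5_nt.SharpLimitAlongPrimes
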